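import Pool.Agent.U892.Theta.Main

/-!
# Metrizability of the theta graphs `Θ_{2,b,c}`

`thetaGraph len` is the theta graph `Θ_{a,b,c}` with `a = len 0`, `b = len 1`, `c = len 2`: two
vertices `s`, `t` joined by three internally disjoint paths (branches) with `a`, `b`, `c` edges. A
graph is `Metrizable` if every consistent path system in it is induced by positive edge weights
(definitions in `Pool.Agent.U892.Theta.Basic` and `Pool.Agent.U892.Theta.Graph`).

**Theorem.** `Θ_{a,b,c}` is metrizable if `min {a, b, c} = 2`.

Together with the metrizability of `Θ_{3,3,3}` (`ThetaThreeThreeThree`) and the known
non-metrizability of `Θ_{3,3,4}` this decides all theta graphs: `Θ_{a,b,c}` is metrizable if and only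
if `min {a,b,c} ≤ 2` or `a = b = c = 3`.

Proof. Let `P` be a consistent path system; `P_{s,t}` is one of the branches, say `M`. For another
branch `B` with vertices `s = b_0, ..., b_m = t` the inner vertices split into a left zone (the path
from `t` passes through `s`), a middle zone and a right zone (the path from `s` passes through `t`), in
this order; all inner vertices of `M` are of the middle zone. Let `2 h` be the length of `M` and
`2 h + 2 Λ_B` that of `B`, and let the middle vertices `v` of `B` be at the positions
`h + Λ_B + f(v)`, `|f(v)| < h`. One computes that the weights induce `P` if and only if
* for `v` in the left and `w` in the right zone of the same branch, the position `ρ(v)` of `v` (the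
  distance from `s`) and the position `2 h + Λ_B + ρ(w)` of `w` satisfy `ρ(w) ≤ ρ(v)` or `ρ(w) ≥ ρ(v)`
  according to `P_{v,w}` running inside `B` or around;
* for `v`, `w` in the middle zones of different branches `f(v) + f(w) ≤ 0` or `≥ 0` according to
  `P_{v,w}` passing through `s` or through `t`.
The first conditions are satisfied by ranks in a linear order. The second ones involve three finite
increasing sequences `f_1, f_2, f_3`. If one of them has at most one element `z`, then `f_2` and
`-f_3` are ranks in a linear order up to an additive constant, and `-z` has to lie in a given gap of
`f_2` and `z` in a given gap of `-f_3`; this is achieved by choosing the additive constant. For a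
branch with two edges there is at most one element `z`. (For `2, 2, 3` elements there is the
obstruction known for `Θ_{3,3,4}`.)
-/

set_option autoImplicit false

namespace Pool.Agent.Results.MP_d7339e_co.MinimumTwo

open Pool.Agent.U892.Theta

/-- The theta graph `Θ_{a,b,c}`, `a = len 0`, `b = len 1`, `c = len 2`, is metrizable if the smallest of
`a, b, c` is `2`. -/
theorem result (len : Fin 3 → ℕ) (h : ∀ k, 2 ≤ len k) (h2 : ∃ k, len k = 2) :
    Metrizable (thetaGraph len) :=
  metrizable_of h (Or.inl h2)

end Pool.Agent.Results.MP_d7339e_co.MinimumTwo
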