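import Pool.Agent.U892.Theta.Main

/-!
# The theta graph `Θ_{3,3,3}` is metrizable

Definitions in `Pool.Agent.U892.Theta.Basic` and `Pool.Agent.U892.Theta.Graph`. The proof is that of
`MinimumTwo`: the choice of the positions of the vertices is reduced to the choice of three increasing
sequences `f_1, f_2, f_3` (the middle vertices of the three branches) with prescribed signs of the
sums `f_k(v) + f_l(w)`, zero sums being allowed. If one sequence has at most one element this is
possible in general. There remains the case that each of the three sequences has two
elements, in which the `6 ^ 3` sign patterns are treated by a table.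
-/

set_option autoImplicit false

namespace Pool.Agent.Results.MP_d7339e_co.ThetaThreeThreeThree

open Pool.Agent.U892.Theta

/-- `Θ_{3,3,3}` is metrizable. -/
theorem result : Metrizable (thetaGraph ![3, 3, 3]) := by
  refine metrizable_of ?_ (Or.inr ?_)
  · intro k; fin_cases k <;> simp
  · intro k; fin_cases k <;> rfl

end Pool.Agent.Results.MP_d7339e_co.ThetaThreeThreeThree
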